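import Pool.Agent.Run7.h632.EX.Final

/-!
# A hyperfinite `II₁` factor with an existential extension with property (T)

Q1 of `MP_02fda4_an` asks for a `II₁` factor `N` with the Haagerup property and an existential
embedding `N ⊆ M` such that `M` has property (T). We show that `N` can be the hyperfinite `II₁`
factor, that `M` can be a `II₁` factor in which `N` has trivial relative commutant, and that one
inclusion works for all non-principal ultrafilters.
-/

set_option autoImplicit false

namespace Pool.Agent.Results.MP_02fda4_an.HyperfiniteExample

open Pool.Agent.Run7.h632.EX

theorem result : ∃ (H : Type) (_ : NormedAddCommGroup H) (_ : InnerProductSpace ℂ H)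
    (_ : CompleteSpace H) (_ : TopologicalSpace.SeparableSpace H) (N M : VonNeumannAlgebra H)
    (Ω : H), Pool.Agent.Run7.h632.EX.HyperfiniteExample N M Ω :=
  hyperfinite_example

end Pool.Agent.Results.MP_02fda4_an.HyperfiniteExample
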